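import Pool.Graph.R_pool_sql_team_seeded_3997aac3.Results.MP_f3836a_nt.TensorsInEachDimension
import Pool.Agent.Helper67.SO.At
import Pool.Agent.Helper67.SO.Fib

/-!
# MP_f3836a_nt: Soulé's conjecture at one integer and smooth schemes glued from two affine spaces

`C n i X` stands for the higher Chow group `CH_n(X, i) ⊗ ℚ` (cycles of dimension `n + i` on `X × Δ^i`),
so that `C 0 i X = H^{2d-i}(X, ℚ(d))` for `X` regular of dimension `d`; `IsChow C` lists the standard
properties which are used. `SouleAt C n X` is the formula of Soulé for the order of `ζ(X, s)` at the one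
integer `n`; question Q1 is the case `n = 0`.

For a polynomial `F` over `ℤ` in `x_1, …, x_N` let `Y_F` be the scheme `t ^ 2 - t = y F(x)` over `ℤ`. It is
smooth over `ℤ` and the union of two open subschemes which are isomorphic to the affine space of
dimension `N + 1` over `ℤ`.

**Theorem.** For all integers `n` and `d ≥ 0` the formula at `n` for all arithmetic schemes with fibres
of dimension at most `d` over `ℤ` is equivalent to the formula at `n + 1` for the schemes `Y_F`,
`F` in `d + 1` variables.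
-/

set_option autoImplicit false

namespace Pool.Agent.Results.MP_f3836a_nt.OneIntegerOverZ

open CategoryTheory AlgebraicGeometry
open Pool.Agent.Y116.UV Q54.CU Q54.ZE Pool.Agent.Q27.SO Pool.Agent.Helper67.SO
open Pool.Agent.Helper62.DB (Db)
open Pool.Agent.Results.MP_f3836a_nt.TensorsInEachDimension (IsZeta order_unique)

/-- The formula of Soulé for `X` at the one integer `n`, where `C n i X = CH_n(X, i) ⊗ ℚ`: these spaces
have finite dimension, almost all of them vanish, the zeta function of `X` has a meromorphic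
continuation to the plane, and each continuation to a connected set which contains `n` has the order
`∑ (-1)^(i+1) dim C n i X` at `n`. -/
structure SouleAt (C : ℤ → ℤ → Sch ℤ → ModuleCat.{0} ℚ) (n : ℤ) (X : Sch ℤ) : Prop where
  finite : ∀ i, Module.Finite ℚ (C n i X)
  bounded : {i | ¬ Subsingleton (C n i X)}.Finite
  continuation : ∃ F, IsZeta X.left Set.univ F
  order : ∀ U F, IsZeta X.left U F → (n : ℂ) ∈ U → meromorphicOrderAt F n =
    ((∑ᶠ i : ℤ, ((i + 1).negOnePow : ℤ) * Module.finrank ℚ (C n i X) : ℤ) : WithTop ℤ)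

/-- The scheme `t ^ 2 - t = y F` over `ℤ`. -/
noncomputable def dblZ {N : ℕ} (F : MvPolynomial (Fin N) ℤ) : Sch ℤ := aff ℤ (Db F)

/-- `X` is smooth and affine over `ℤ`, separated and of finite type, and the union of two open
subschemes which are isomorphic to the affine space of dimension `N` over `ℤ`. -/
structure IsGluedSpace (N : ℕ) (X : Sch ℤ) : Prop where
  ft : FT True X
  affine : IsAffine X.left
  smooth : Smooth X.hom
  glued : ∃ j₁ j₂ : aff ℤ (MvPolynomial (Fin N) ℤ) ⟶ X, IsOpenImmersion j₁.left ∧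
    IsOpenImmersion j₂.left ∧ Set.range j₁.left ∪ Set.range j₂.left = Set.univ

section

/-- The orders of a continuation are integers. -/
lemma exists_ord {I : Type} {N : I → ℕ} {σ : ℝ} (h : Good N σ) {F : ℂ → ℂ}
    (hF : MeromorphicOn F Set.univ) {τ : ℝ} (h1 : ∀ s : ℂ, τ < s.re → F s = ∏' i, fac N s i) :
    ∃ e : ℤ → ℤ, Ord N e ∧ ∀ n : ℤ, meromorphicOrderAt F n = ((e n : ℤ) : WithTop ℤ) := by
  have h2 : meromorphicOrderAt F ((max σ τ + 1 : ℝ) : ℂ) ≠ ⊤ := by
    intro hcon
    rw [meromorphicOrderAt_eq_top_iff] at hcon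
    have h3 : {z : ℂ | max σ τ < z.re} ∈ nhds (((max σ τ + 1 : ℝ) : ℂ)) :=
      (isOpen_lt continuous_const Complex.continuous_re).mem_nhds (by
        change max σ τ < (((max σ τ + 1 : ℝ) : ℂ)).re
        rw [Complex.ofReal_re]
        linarith)
    have h4 := hcon.and (mem_nhdsWithin_of_mem_nhds h3)
    obtain ⟨z, hz, hz'⟩ := h4.exists
    have hz2 : max σ τ < z.re := hz'
    rw [h1 z ((le_max_right _ _).trans_lt hz2), tprod_fac h ((le_max_left _ _).trans hz2.le)] at hz
    exact Complex.exp_ne_zero _ hz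
  have h3 : ∀ s : ℂ, meromorphicOrderAt F s ≠ ⊤ := by
    intro s
    exact (hF.exists_meromorphicOrderAt_ne_top_iff_forall isConnected_univ).1
      ⟨⟨((max σ τ + 1 : ℝ) : ℂ), trivial⟩, h2⟩ ⟨s, trivial⟩
  refine ⟨fun n => (meromorphicOrderAt F (n : ℂ)).untop (h3 _), ⟨F, hF, ⟨τ, h1⟩, fun n => ?_⟩,
    fun n => ?_⟩
  · rw [WithTop.coe_untop]
  · rw [WithTop.coe_untop]

/-- The formula of Soulé at `n` is the property `At`. -/
lemma at_iff (C : ℤ → ℤ → Sch ℤ → ModuleCat.{0} ℚ) (n : ℤ) {X : Sch ℤ} (hX : FT True X) :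
    SouleAt C n X ↔ At C n X := by
  have hchi : (∑ᶠ i : ℤ, ((i + 1).negOnePow : ℤ) * Module.finrank ℚ (C n i X) : ℤ) =
      -chi fun i => C n i X := by
    change _ = -∑ᶠ i : ℤ, (i.negOnePow : ℤ) * (Module.finrank ℚ (C n i X) : ℤ)
    rw [← finsum_neg_distrib]
    apply finsum_congr
    intro i
    rw [Int.negOnePow_succ]
    push_cast
    ring
  have hzero : ∀ i, Module.Finite ℚ (C n i X) →
      (Module.finrank ℚ (C n i X) ≠ 0 ↔ ¬ Subsingleton (C n i X)) := fun i h =>
    not_congr Module.finrank_zero_iff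
  constructor
  · rintro ⟨h1, h2, ⟨F, hF⟩, h4⟩
    obtain ⟨σ, hσ⟩ := zgood X (ft_false hX)
    obtain ⟨τ, h5⟩ := hF.product
    obtain ⟨e, he, he2⟩ := exists_ord hσ hF.meromorphic (τ := τ) (fun s hs => (h5 s hs).2)
    refine ⟨⟨h1, h2.subset fun i hi => (hzero i (h1 i)).1 hi⟩, e, he, ?_⟩
    have h6 := h4 _ F hF trivial
    rw [he2, hchi] at h6
    exact_mod_cast h6
  · rintro ⟨h1, e, ⟨F, h2, ⟨σ, h3⟩, h4⟩, h5⟩
    have hF : IsZeta X.left Set.univ F := ⟨isConnected_univ, h2, σ, fun s hs => ⟨trivial, h3 s hs⟩⟩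
    refine ⟨fun i => h1.finite i, h1.supp.subset fun i hi =>
      (hzero i (h1.finite i)).2 hi, ⟨F, hF⟩, fun U G hG hn => ?_⟩
    rw [order_unique hG hF hn, h4, h5, hchi]

end

section

variable {C : ℤ → ℤ → Sch ℤ → ModuleCat.{0} ℚ}

/-- the affine space with one more variable -/
noncomputable def eqv (N : ℕ) : Polynomial (MvPolynomial (Fin N) ℤ) ≃ₐ[ℤ]
    MvPolynomial (Fin (N + 1)) ℤ := (MvPolynomial.finSuccEquiv ℤ N).symm

lemma glued_dblZ {N : ℕ} (F : MvPolynomial (Fin N) ℤ) : IsGluedSpace (N + 1) (dblZ F) where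
  ft := ft_aff True
  affine := (inferInstance : IsAffine (Spec (CommRingCat.of (Db F))))
  smooth := Pool.Agent.Helper62.DB.smooth0 F (eqv N)
  glued := Pool.Agent.Helper62.DB.two_spaces0 F (eqv N)

/-- The double cover at `n + 1` and the hypersurface at `n`. -/
lemma at_dbl (hC : IsChow C) (point : Soule C (aff ℤ ℤ)) (n : ℤ) {N : ℕ}
    (F : MvPolynomial (Fin N) ℤ) :
    At C (n + 1) (dblZ F) ↔ At C n (aff ℤ (MvPolynomial (Fin N) ℤ ⧸ Ideal.span {F})) := by
  have hP := cls_at hC (n + 1)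
  have hb := bnd_soule hC point
  have h1 : At C (n + 1) (aff ℤ (Polynomial (MvPolynomial (Fin N) ℤ))) :=
    Pool.Agent.Helper62.EC.iso_alg hP (eqv N).symm (at_of_soule (hb.space (N + 1)) (n + 1))
  let B := MvPolynomial (Fin N) ℤ ⧸ Ideal.span {F}
  let e : Polynomial B ≃ₐ[ℤ] MvPolynomial (Fin 1) B :=
    AlgEquiv.ofRingEquiv (f := (MvPolynomial.uniqueAlgEquiv B (Fin 1)).symm.toRingEquiv) (by
      intro r
      rw [eq_intCast, eq_intCast, map_intCast])
  have hft : Algebra.FiniteType ℤ (Polynomial B) :=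
    Algebra.FiniteType.trans (S := B) inferInstance inferInstance
  have hft2 : Algebra.FiniteType ℤ (MvPolynomial (Fin 1) B) :=
    Algebra.FiniteType.trans (S := B) inferInstance inferInstance
  have h2 : At C (n + 1) (aff ℤ (Polynomial B)) ↔ At C (n + 1) (aff ℤ (MvPolynomial (Fin 1) B)) :=
    ⟨fun h => Pool.Agent.Helper62.EC.iso_alg hP e h,
      fun h => Pool.Agent.Helper62.EC.iso_alg hP e.symm h⟩
  exact ((Pool.Agent.Helper62.DB.dbl_iff (R := ℤ) hP F h1).trans h2).trans (at_line hC B n)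

/-- All closed subschemes of affine spaces. -/
lemma at_all (hC : IsChow C) {n : ℤ}
    (h : ∀ (N : ℕ) (F : MvPolynomial (Fin N) ℤ),
      At C n (aff ℤ (MvPolynomial (Fin N) ℤ ⧸ Ideal.span {F}))) (X : Sch ℤ) (hX : FT True X) :
    At C n X := by
  have hP := cls_at hC n
  refine of_affine' (P := At C n) (sep := True) hP.iso hP.total ?_ X hX
  intro A _ _ hA
  obtain ⟨N, f, hf⟩ := Algebra.FiniteType.iff_quotient_mvPolynomial''.1 hA
  exact Pool.Agent.Helper62.EC.iso_alg hP (Ideal.quotientKerAlgEquivOfSurjective hf)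
    (of_hyp hP (fun F => h N F) (RingHom.ker f))

end

/-- **Soulé's conjecture at one integer and smooth schemes glued from two affine spaces over `ℤ`.** -/
theorem result (C : ℤ → ℤ → Sch ℤ → ModuleCat.{0} ℚ) (hC : IsChow C)
    (point : ∀ n : ℤ, SouleAt C n (aff ℤ ℤ))
    (finite : ∀ (p : ℕ) [Fact p.Prime] (n : ℤ), SouleAt C n (aff ℤ (ZMod p))) :
    (∀ (N : ℕ) (F : MvPolynomial (Fin N) ℤ), IsGluedSpace (N + 1) (dblZ F) ∧
      ∀ n : ℤ, SouleAt C (n + 1) (dblZ F) ↔
        SouleAt C n (aff ℤ (MvPolynomial (Fin N) ℤ ⧸ Ideal.span {F}))) ∧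
    (∀ (n : ℤ) (d : ℕ), List.TFAE
      [∀ X : Sch ℤ, FT True X → IsRegularSch X.left → FibLE d (X := X.left) X.hom → SouleAt C n X,
        ∀ X : Sch ℤ, FT True X → FibLE d (X := X.left) X.hom → SouleAt C n X,
        ∀ F : MvPolynomial (Fin (d + 1)) ℤ, SouleAt C (n + 1) (dblZ F)]) ∧
    ((∀ X : Sch ℤ, FT True X → ∀ n, SouleAt C n X) ↔
      ∀ (N : ℕ) (X : Sch ℤ), IsGluedSpace N X → ∀ n, SouleAt C n X) := by
  -- known cases
  have hsoule : ∀ {X : Sch ℤ}, FT True X → (∀ n, SouleAt C n X) → Soule C X := by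
    intro X hX h
    refine ⟨fun n => ((at_iff C n hX).1 (h n)).1, ?_⟩
    obtain ⟨F, hF⟩ := (h 0).continuation
    obtain ⟨σ, h5⟩ := hF.product
    refine ⟨F, hF.meromorphic, ⟨σ, fun s hs => (h5 s hs).2⟩, fun m => ?_⟩
    have h6 := (h m).order _ F hF trivial
    rw [h6]
    have hchi : (∑ᶠ i : ℤ, ((i + 1).negOnePow : ℤ) * Module.finrank ℚ (C m i X) : ℤ) =
        -chi fun i => C m i X := by
      change _ = -∑ᶠ i : ℤ, (i.negOnePow : ℤ) * (Module.finrank ℚ (C m i X) : ℤ)
      rw [← finsum_neg_distrib]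
      apply finsum_congr
      intro i
      rw [Int.negOnePow_succ]
      push_cast
      ring
    rw [hchi]
  have hpt : Soule C (aff ℤ ℤ) := hsoule (ft_aff True) point
  have hb := bnd_soule hC hpt
  have hft : ∀ {N : ℕ} (F : MvPolynomial (Fin N) ℤ), FT True (dblZ F) := fun F => ft_aff True
  have hdbl : ∀ (N : ℕ) (F : MvPolynomial (Fin N) ℤ) (n : ℤ), SouleAt C (n + 1) (dblZ F) ↔
      SouleAt C n (aff ℤ (MvPolynomial (Fin N) ℤ ⧸ Ideal.span {F})) := by
    intro N F n
    rw [at_iff C _ (hft F), at_iff C _ (ft_aff True)]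
    exact at_dbl hC hpt n F
  refine ⟨fun N F => ⟨glued_dblZ F, hdbl N F⟩, fun n d => ?_, ?_⟩
  · have hF : ∀ (p : ℕ) [Fact p.Prime], At C n (aff ℤ (MvPolynomial (Fin (d + 1)) (ZMod p))) := by
      intro p _
      have : Algebra.FiniteType ℤ (ZMod p) :=
        Algebra.FiniteType.of_surjective (Algebra.ofId ℤ (ZMod p)) (ZMod.intCast_surjective)
      exact at_of_soule (Pool.Agent.Z125.UN.p_poly hb _ (hsoule (ft_aff True) (finite p))) n
    have hmain := fib_hyp (cls_at hC n) d (at_of_soule (hb.space (d + 1)) n)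
      (at_of_soule hpt n) hF
    have h01 : (∀ X : Sch ℤ, FT True X → IsRegularSch X.left → FibLE d (X := X.left) X.hom →
        At C n X) → ∀ X : Sch ℤ, FT True X → FibLE d (X := X.left) X.hom → At C n X :=
      (hmain.out 0 1).1
    have h12 : (∀ X : Sch ℤ, FT True X → FibLE d (X := X.left) X.hom → At C n X) ↔
        ∀ F : MvPolynomial (Fin (d + 1)) ℤ,
          At C n (aff ℤ (MvPolynomial (Fin (d + 1)) ℤ ⧸ Ideal.span {F})) := hmain.out 1 2
    tfae_have 1 ↔ 2 := by
      constructor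
      · intro h X hX hd
        rw [at_iff C n hX]
        exact h01 (fun X hX hr hd => (at_iff C n hX).1 (h X hX hr hd)) X hX hd
      · exact fun h X hX _ hd => h X hX hd
    tfae_have 2 ↔ 3 := by
      constructor
      · intro h F
        rw [hdbl, at_iff C _ (ft_aff True)]
        exact h12.1 (fun X hX hd => (at_iff C n hX).1 (h X hX hd)) F
      · intro h X hX hd
        rw [at_iff C n hX]
        exact h12.2 (fun F => by
          rw [← at_iff C _ (ft_aff True), ← hdbl]
          exact h F) X hX hd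
    tfae_finish
  · constructor
    · exact fun h N X hX n => h X hX.ft n
    · intro h X hX n
      rw [at_iff C n hX]
      refine at_all hC (fun N F => ?_) X hX
      rw [← at_iff C _ (ft_aff True), ← hdbl]
      exact h (N + 1) (dblZ F) (glued_dblZ F) (n + 1)

end Pool.Agent.Results.MP_f3836a_nt.OneIntegerOverZ
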