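import Pool.Agent.Helper24.SE.Soule

/-!
# Soulé's conjecture and exceptional sets with a power saving

`C n i X` stands for the higher Chow group `CH_n(X, i) ⊗ ℚ` (cycles of dimension `n + i` on
`X × Δ^i`), so that `C 0 i X = H^{2d-i}(X, ℚ(d))` for `X` regular of dimension `d`; `IsChow C` lists the
standard properties which are used. `SouleAt C n X` is the formula of Soulé for the order of `ζ(X, s)` at
the one integer `n`; question Q1 is the case `n = 0`.

For a polynomial `F` over `ℤ` in `x_1, …, x_r` let `D(F)` be the complement of the (singular, reducible)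
hypersurface `F = 0` in the affine space over `ℤ`; it is smooth over `ℤ`. Let `Box r D B` be the finite
set of the `F` of degree at most `D` in each variable for which the sum of the absolute values of the
coefficients is at most `B`, and `Exc(D, B)` the set of the exceptions: the `F` in the box for which the
formula at `n` for `D(F)` is false.

**Theorem.** (1) The formula of Soulé at `n` holds for all regular separated schemes of finite type over `ℤ`
with fibres of dimension at most `d` if and only if the exceptional sets in `d + 1` variables have a power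
saving: for some `ε > 0` there are infinitely many `D` and for these infinitely many `B` such that
`#Exc(D, B) ≤ #Box(D, B) ^ (1 - ε)`.

(2) A zero–one law: if there is one exception in `r` variables, then for every `ε > 0`, for all large `D`
and all large `B` (depending on `D`) there are more than `#Box(D, B) ^ (1 - ε)` exceptions.

(3) If the hypersurfaces `F = 0` and `H = 0` are disjoint, and the formula is false for `D(F)`, then it is
false for `D(H)` or for `D(F H)`.

(4) The formula at `n` holds for all separated schemes of finite type over `ℤ` if and only if the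
exceptional sets in `r` variables have a power saving, for infinitely many `r`.
-/

set_option autoImplicit false

namespace Pool.Agent.Results.MP_f3836a_nt.PowerSaving

open CategoryTheory AlgebraicGeometry Filter
open Pool.Agent.Y116.UV Q54.CU Q54.ZE Pool.Agent.Q27.SO Pool.Agent.Helper67.SO
open Pool.Agent.Helper24.SE
open Pool.Agent.Results.MP_f3836a_nt.TensorsInEachDimension (IsZeta order_unique)

/-- The complement `D(F) : F ≠ 0` in the affine space over `ℤ`. -/
noncomputable def princ {r : ℕ} (F : MvPolynomial (Fin r) ℤ) : Sch ℤ := aff ℤ (Localization.Away F)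

/-- The formula of Soulé at `n` is false for `D(F)`. -/
def Exception (C : ℤ → ℤ → Sch ℤ → ModuleCat.{0} ℚ) (n : ℤ) {r : ℕ}
    (F : MvPolynomial (Fin r) ℤ) : Prop := ¬ SouleAt C n (princ F)

/-- **Soulé's conjecture and exceptional sets with a power saving.** -/
theorem result (C : ℤ → ℤ → Sch ℤ → ModuleCat.{0} ℚ) (hC : IsChow C)
    (point : ∀ n : ℤ, SouleAt C n (aff ℤ ℤ))
    (finite : ∀ (p : ℕ) [Fact p.Prime] (n : ℤ), SouleAt C n (aff ℤ (ZMod p))) :
    -- (1) one integer and one dimension
    (∀ (n : ℤ) (d : ℕ), List.TFAE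
      [∀ X : Sch ℤ, FT True X → IsRegularSch X.left → FibLE d (X := X.left) X.hom → SouleAt C n X,
        ∀ X : Sch ℤ, FT True X → FibLE d (X := X.left) X.hom → SouleAt C n X,
        Saving (r := d + 1) (Exception C n)]) ∧
    -- (2) one exception
    (∀ (n : ℤ) (r : ℕ) (G : MvPolynomial (Fin r) ℤ), Exception C n G → ∀ ε : ℝ, 0 < ε →
      ∀ᶠ D : ℕ in atTop, ∀ᶠ B : ℕ in atTop,
        ((Box r D B).ncard : ℝ) ^ (1 - ε) < ((Exc (r := r) (Exception C n) D B).ncard : ℝ)) ∧
    -- (3) disjoint hypersurfaces
    (∀ (n : ℤ) (r : ℕ) (F H : MvPolynomial (Fin r) ℤ), Ideal.span {H} ⊔ Ideal.span {F} = ⊤ →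
      Exception C n F → Exception C n H ∨ Exception C n (F * H)) ∧
    -- (4) all dimensions
    ∀ n : ℤ, (∀ X : Sch ℤ, FT True X → SouleAt C n X) ↔
      ∃ᶠ r : ℕ in atTop, Saving (r := r) (Exception C n) := by
  -- known cases
  have hsoule : ∀ {X : Sch ℤ}, FT True X → (∀ n, SouleAt C n X) → Soule C X := by
    intro X hX h
    refine ⟨fun n => ((at_iff C n hX).1 (h n)).1, ?_⟩
    obtain ⟨F, hF⟩ := (h 0).continuation
    obtain ⟨σ, h5⟩ := hF.product
    refine ⟨F, hF.meromorphic, ⟨σ, fun s hs => (h5 s hs).2⟩, fun m => ?_⟩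
    have h6 := (h m).order _ F hF trivial
    rw [h6]
    have hchi : (∑ᶠ i : ℤ, ((i + 1).negOnePow : ℤ) * Module.finrank ℚ (C m i X) : ℤ) =
        -chi fun i => C m i X := by
      change _ = -∑ᶠ i : ℤ, (i.negOnePow : ℤ) * (Module.finrank ℚ (C m i X) : ℤ)
      rw [← finsum_neg_distrib]
      apply finsum_congr
      intro i
      rw [Int.negOnePow_succ]
      push_cast
      ring
    rw [hchi]
  have hpt : Soule C (aff ℤ ℤ) := hsoule (ft_aff True) point
  have hb := bnd_soule hC hpt
  have hsp : ∀ (n : ℤ) (r : ℕ), At C n (aff ℤ (MvPolynomial (Fin r) ℤ)) := fun n r =>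
    at_of_soule (hb.space r) n
  -- exceptions
  have hex : ∀ (n : ℤ) {r : ℕ} (F : MvPolynomial (Fin r) ℤ), Exception C n F ↔
      ¬ At C n (aff ℤ (Localization.Away F)) := fun n r F => not_congr (at_iff C n (ft_aff True))
  have hdis : ∀ (n : ℤ) (r : ℕ) (F H : MvPolynomial (Fin r) ℤ),
      Ideal.span {H} ⊔ Ideal.span {F} = ⊤ → Exception C n F →
        Exception C n H ∨ Exception C n (F * H) := by
    intro n r F H hFH hF
    rw [hex] at hF
    rw [hex, hex]
    exact disj_compl (cls_at hC n) (hsp n r) F H hFH hF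
  have hbad : ∀ (n : ℤ) (r : ℕ) (G P : MvPolynomial (Fin r) ℤ), Exception C n G →
      Exception C n (1 + G * P) ∨ Exception C n (G * (1 + G * P)) := fun n r G P hG =>
    hdis n r G _ (span_one G P) hG
  have hzero : ∀ (n : ℤ) (r : ℕ), ¬ Exception C n (0 : MvPolynomial (Fin r) ℤ) := by
    intro n r h
    rw [hex] at h
    exact h (compl_zero (cls_at hC n) (hsp n r))
  have hsav : ∀ (n : ℤ) (r : ℕ), Saving (r := r) (Exception C n) ↔
      ∀ F : MvPolynomial (Fin r) ℤ, At C n (aff ℤ (MvPolynomial (Fin r) ℤ ⧸ Ideal.span {F})) := by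
    intro n r
    rw [← saving_iff (hbad n r) (hzero n r)]
    refine forall_congr' fun F => ?_
    rw [hex, not_not]
    exact compl_iff (cls_at hC n) (hsp n r) F
  -- one dimension
  have hdim : ∀ (n : ℤ) (d : ℕ), List.TFAE
      [∀ X : Sch ℤ, FT True X → IsRegularSch X.left → FibLE d (X := X.left) X.hom → SouleAt C n X,
        ∀ X : Sch ℤ, FT True X → FibLE d (X := X.left) X.hom → SouleAt C n X,
        Saving (r := d + 1) (Exception C n)] := by
    intro n d
    have hF : ∀ (p : ℕ) [Fact p.Prime], At C n (aff ℤ (MvPolynomial (Fin (d + 1)) (ZMod p))) := by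
      intro p _
      have : Algebra.FiniteType ℤ (ZMod p) :=
        Algebra.FiniteType.of_surjective (Algebra.ofId ℤ (ZMod p)) (ZMod.intCast_surjective)
      exact at_of_soule (Pool.Agent.Z125.UN.p_poly hb _ (hsoule (ft_aff True) (finite p))) n
    have hmain := fib_hyp (cls_at hC n) d (hsp n (d + 1)) (at_of_soule hpt n) hF
    have h01 : (∀ X : Sch ℤ, FT True X → IsRegularSch X.left → FibLE d (X := X.left) X.hom →
        At C n X) → ∀ X : Sch ℤ, FT True X → FibLE d (X := X.left) X.hom → At C n X :=
      (hmain.out 0 1).1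
    have h12 : (∀ X : Sch ℤ, FT True X → FibLE d (X := X.left) X.hom → At C n X) ↔
        ∀ F : MvPolynomial (Fin (d + 1)) ℤ,
          At C n (aff ℤ (MvPolynomial (Fin (d + 1)) ℤ ⧸ Ideal.span {F})) := hmain.out 1 2
    tfae_have 1 ↔ 2 := by
      constructor
      · intro h X hX hd
        rw [at_iff C n hX]
        exact h01 (fun X hX hr hd => (at_iff C n hX).1 (h X hX hr hd)) X hX hd
      · exact fun h X hX _ hd => h X hX hd
    tfae_have 2 ↔ 3 := by
      rw [hsav, ← h12]
      exact ⟨fun h X hX hd => (at_iff C n hX).1 (h X hX hd),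
        fun h X hX hd => (at_iff C n hX).2 (h X hX hd)⟩
    tfae_finish
  refine ⟨hdim, fun n r G hG ε hε => ?_, hdis, fun n => ⟨fun h => ?_, fun h X hX => ?_⟩⟩
  · exact full (hbad n r) hG (fun h => hzero n r (h ▸ hG)) hε
  · refine Frequently.of_forall fun r => ?_
    rw [hsav]
    exact fun F => (at_iff C n (ft_aff True)).1 (h _ (ft_aff True))
  · rw [at_iff C n hX]
    refine at_all hC (fun N F => ?_) X hX
    obtain ⟨r, hr, hrN⟩ := (h.and_eventually (eventually_ge_atTop (N + 1))).exists
    obtain ⟨d, rfl⟩ : ∃ d, r = d + 1 := ⟨r - 1, by omega⟩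
    have h1 : ∀ X : Sch ℤ, FT True X → FibLE d (X := X.left) X.hom → SouleAt C n X :=
      ((hdim n d).out 1 2).2 hr
    rw [← at_iff C n (ft_aff True)]
    exact h1 _ (ft_aff True) (fib_quot (by omega) _)

end Pool.Agent.Results.MP_f3836a_nt.PowerSaving
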